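import Mathlib
import Pool.Agent.N585.PT.Defs

/-!
# Project PT, task 6: branches
-/

set_option autoImplicit false

namespace Pool.Agent.N189.PT

open Pool.Agent.N585.PT

section

variable {V : Type} {G : SimpleGraph V}

theorem ra_refl {w x : V} (h : x ≠ w) : RA G w x x := ⟨h, .refl⟩

theorem ra_trans {w x y z : V} (h : RA G w x y) (h' : RA G w y z) : RA G w x z :=
  ⟨h.1, h.2.trans h'.2⟩

theorem ra_right {w x y : V} (h : RA G w x y) : y ≠ w := by
  obtain ⟨h1, h2⟩ := h
  induction h2 with
  | refl => exact h1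
  | tail _ h3 _ => exact h3.2

theorem ra_tail {w x y z : V} (h : RA G w x y) (ha : G.Adj y z) (hz : z ≠ w) : RA G w x z :=
  ⟨h.1, h.2.tail ⟨ha, hz⟩⟩

theorem ra_symm {w x y : V} (h : RA G w x y) : RA G w y x := by
  obtain ⟨h1, h2⟩ := h
  induction h2 with
  | refl => exact ra_refl h1
  | @tail b c h3 h4 ih =>
    exact ra_trans (ra_tail (ra_refl h4.2) h4.1.symm (ra_right ⟨h1, h3⟩)) ih

/-- a chain avoiding `w` -/
theorem ra_chain {w : V} : ∀ {Q : List V} {a : V}, (a :: Q).IsChain G.Adj → w ∉ a :: Q →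
    ∀ b ∈ a :: Q, RA G w a b := by
  intro Q
  induction Q with
  | nil =>
    intro a _ hw b hb
    simp at hb hw
    subst hb
    exact ra_refl (fun h => hw h.symm)
  | cons c Q ih =>
    intro a hc hw b hb
    have hc' := List.isChain_cons_cons.1 hc
    rcases List.mem_cons.1 hb with rfl | hb
    · exact ra_refl fun h => hw (by simp [h])
    · have h1 : w ∉ c :: Q := fun h => hw (List.mem_cons_of_mem _ h)
      refine ra_trans (ra_tail (ra_refl fun h => hw (by simp [h])) hc'.1 ?_) (ih hc'.2 h1 b hb)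
      exact fun h => h1 (by simp [h])

theorem ra_chain' {w : V} {Q : List V} (hc : Q.IsChain G.Adj) (hw : w ∉ Q) {a b : V}
    (ha : a ∈ Q) (hb : b ∈ Q) : RA G w a b := by
  cases Q with
  | nil => simp at ha
  | cons c Q => exact ra_trans (ra_symm (ra_chain hc hw a ha)) (ra_chain hc hw b hb)

/-- in a chain containing `u` -/
theorem chain_nb {u w : V} {Q : List V} (hc : Q.IsChain G.Adj) (hn : Q.Nodup) (hu : u ∈ Q)
    (hw : w ∈ Q) (hwu : w ≠ u) : ∃ z ∈ Q, G.Adj u z ∧ RA G u w z := by
  obtain ⟨A, B, rfl⟩ := List.append_of_mem hu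
  have hn' := List.nodup_append.1 hn
  have hc' := List.isChain_append.1 hc
  have huB : u ∉ B := (List.nodup_cons.1 hn'.2.1).1
  have huA : u ∉ A := fun h => hn'.2.2 u h u (by simp) rfl
  rcases List.mem_append.1 hw with hw | hw
  · have hA : A ≠ [] := by rintro rfl; simp at hw
    refine ⟨A.getLast hA, by simp, ?_, ra_chain' hc'.1 huA hw (List.getLast_mem hA)⟩
    exact (hc'.2.2 _ (List.getLast?_eq_some_getLast hA ▸ rfl) u (by simp)).symm
  · rcases List.mem_cons.1 hw with hw | hw
    · exact absurd hw hwu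
    · cases B with
      | nil => simp at hw
      | cons z B =>
        have h1 := List.isChain_cons_cons.1 hc'.2.1
        exact ⟨z, by simp, h1.1, ra_chain' h1.2 huB hw (by simp)⟩

variable [Fintype V]

theorem sep (h : StmPath) (hG : G.IsTree) {u a b : V} (ha : G.Adj u a) (hb : G.Adj u b)
    (hab : a ≠ b) : ¬ RA G u a b := by
  have h1 := ((h V G hG).2 [a, u, b] a b (by simp [ha.symm, hb])
    (by simp [hab, ha.ne.symm, hb.ne]) rfl (by simp)).1 u
  have h2 := h1.1 (by simp)
  rcases h2 with h2 | h2 | h2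
  · exact absurd h2 ha.ne
  · exact absurd h2 hb.ne
  · exact h2

theorem sep' (h : StmPath) (hG : G.IsTree) {u v w : V} {Q : List V} (hc : Q.IsChain G.Adj)
    (hn : Q.Nodup) (hu : u ∈ Q) (ha : G.Adj u v) (hv : v ∉ Q) (hw : w ∈ Q) : ¬ RA G u v w := by
  intro hr
  obtain ⟨z, hz, hz1, hz2⟩ := chain_nb hc hn hu hw (ra_right hr)
  exact sep h hG ha hz1 (fun e => hv (e ▸ hz)) (ra_trans hr hz2)

theorem inner (h : StmPath) (hG : G.IsTree) {u v : V} (ha : G.Adj u v) {u' v' : V}
    (h1 : RA G u v u') (ha' : G.Adj u' v') (hvu : v' ≠ u) (hv : ¬ RA G u' v' v) {w : V}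
    (hw : RA G u' v' w) : RA G u v w := by
  obtain ⟨h2, h3⟩ := hw
  induction h3 with
  | refl => exact ra_tail h1 ha' hvu
  | @tail b c h4 h5 ih =>
    refine ra_tail ih h5.1 ?_
    rintro rfl
    have h6 : v ≠ b := by
      rintro rfl
      exact hv ⟨h2, h4⟩
    exact sep h hG ha h5.1.symm h6 ih

theorem path_sub (h : StmPath) (hG : G.IsTree) {u v x y : V} (hx : RA G u v x)
    (hy : RA G u v y) {w : V} (hw : onP G x y w) : RA G u v w := by
  obtain ⟨Q, hc, hn, h0, h1⟩ := (h V G hG).1 x y
  have h2 := ((h V G hG).2 Q x y hc hn h0 h1).1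
  have h3 : u ∉ Q := by
    intro h4
    rcases (h2 u).1 h4 with h5 | h5 | h5
    · exact ra_right hx h5.symm
    · exact ra_right hy h5.symm
    · exact h5 (ra_trans (ra_symm hx) hy)
  exact ra_trans hx (ra_chain' hc h3 (List.mem_of_mem_head? h0) ((h2 w).2 hw))

theorem dd_take (h : StmPath) (hG : G.IsTree) {Q : List V} {x v : V} (hc : Q.IsChain G.Adj)
    (hn : Q.Nodup) (h0 : Q.head? = some x) {j : ℕ} (hj : Q[j]? = some v) :
    dd G x v = j + 1 := by
  obtain ⟨hj1, hj2⟩ := List.getElem?_eq_some_iff.1 hj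
  have h1 : (Q.take (j + 1)).head? = some x := by
    rw [List.head?_take]; simp [h0]
  have h2 : (Q.take (j + 1)).getLast? = some v := by
    rw [List.getLast?_take]; simp [hj]
  have h3 := ((h V G hG).2 (Q.take (j + 1)) x v (hc.take _) (hn.sublist (List.take_sublist _ _))
    h1 h2).2
  rw [h3, List.length_take]
  omega

theorem dd_drop (h : StmPath) (hG : G.IsTree) {Q : List V} {y v : V} (hc : Q.IsChain G.Adj)
    (hn : Q.Nodup) (h0 : Q.getLast? = some y) {j : ℕ} (hj : Q.reverse[j]? = some v) :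
    dd G v y = j + 1 := by
  obtain ⟨hj1, hj2⟩ := List.getElem?_eq_some_iff.1 hj
  rw [List.length_reverse] at hj1
  have hj' : Q[Q.length - 1 - j]? = some v := by
    rw [← hj, List.getElem?_reverse hj1]
  obtain ⟨hj3, hj4⟩ := List.getElem?_eq_some_iff.1 hj'
  have h1 : (Q.drop (Q.length - 1 - j)).head? = some v := by
    rw [List.head?_drop]; exact hj'
  have h2 : (Q.drop (Q.length - 1 - j)).getLast? = some y := by
    rw [List.getLast?_drop]; simp [h0]; omega
  have h3 := ((h V G hG).2 (Q.drop (Q.length - 1 - j)) v y (hc.drop _)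
    (hn.sublist (List.drop_sublist _ _)) h1 h2).2
  rw [h3, List.length_drop]
  omega

theorem br_eq {u v : V} {l : List V} (hn : l.Nodup) (hl : ∀ w, w ∈ l ↔ RA G u v w) :
    br G u v = l.length := by
  classical
  unfold br
  rw [← List.toFinset_card_of_nodup hn]
  congr 1
  ext w
  simp [hl]

omit [Fintype V] in
theorem conn {u : V} : ∀ {L : List (List V)} {Q : List V} {v : V}, ChDec G (Q :: L) →
    u ∉ (Q :: L).flatten → v ∈ Q → ∀ w ∈ (Q :: L).flatten, RA G u v w := by
  intro L
  induction L with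
  | nil =>
    intro Q v hd hu hv w hw
    simp at hu hw
    exact ra_chain' (hd.1 Q (by simp)).2 hu hv hw
  | cons Q' L ih =>
    intro Q v hd hu hv w hw
    rw [List.flatten_cons, List.mem_append] at hw hu
    rcases hw with hw | hw
    · exact ra_chain' (hd.1 Q (by simp)).2 (fun h => hu (.inl h)) hv hw
    · obtain ⟨h1, h2, h3⟩ := hd
      have h2' := List.isChain_cons_cons.1 h2
      obtain ⟨t, a, b, ha, hb, hab⟩ := h2'.1
      have ha' : a ∈ Q := List.mem_reverse.1 (List.mem_of_getElem? ha)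
      have hb' : b ∈ Q' := List.mem_of_getElem? hb
      have h4 : RA G u v a := ra_chain' (h1 Q (by simp)).2 (fun h => hu (.inl h)) hv ha'
      have h5 : b ≠ u := by
        rintro rfl
        exact hu (.inr (by rw [List.flatten_cons]; exact List.mem_append_left _ hb'))
      refine ra_trans (ra_tail h4 hab h5) (ih ⟨fun q hq => h1 q (List.mem_cons_of_mem _ hq), h2'.2,
        ?_⟩ (fun h => hu (.inr h)) hb' w hw)
      rw [List.flatten_cons] at h3
      exact (List.nodup_append.1 h3).2.1

theorem fwd (h : StmPath) (hG : G.IsTree) {u v : V} {k : ℕ} (hcc : CC G u v k) :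
    G.Adj u v → ∃ (Q : List V) (L : List (List V)), ChDec G (Q :: L) ∧
      (∀ w, w ∈ (Q :: L).flatten ↔ RA G u v w) ∧ 1 ≤ k ∧ Q[k - 1]? = some v := by
  classical
  induction hcc with
  | @last u v x y h1 h2 h3 h4 =>
    intro ha
    obtain ⟨Q, hc, hn, hx, hy⟩ := (h V G hG).1 x y
    obtain ⟨h5, h6⟩ := (h V G hG).2 Q x y hc hn hx hy
    obtain ⟨j, hj1, hj2⟩ := List.mem_iff_getElem.1 ((h5 v).2 h1)
    have hj : Q[j]? = some v := by rw [List.getElem?_eq_getElem hj1, hj2]
    have h7 := dd_take h hG hc hn hx hj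
    have h8 : Q ≠ [] := by rintro rfl; simp at hx
    have h9 : Q.toFinset = Finset.univ.filter fun w => RA G u v w := by
      apply Finset.eq_of_subset_of_card_le
      · intro w hw
        simp only [Finset.mem_filter, Finset.mem_univ, true_and]
        exact path_sub h hG h2 h3 ((h5 w).1 (List.mem_toFinset.1 hw))
      · rw [List.toFinset_card_of_nodup hn, ← h6, h4]
        exact le_of_eq (by unfold br; congr)
    refine ⟨Q, [], ⟨by simpa using ⟨h8, hc⟩, by simp, by simpa using hn⟩, ?_, by omega, ?_⟩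
    · intro w
      have := Finset.ext_iff.1 h9 w
      simpa using this
    · rw [h7]; exact hj
  | @cons u v x y u' v' h1 h2 h3 h4 h5 h6 h7 h8 h9 ih =>
    intro ha
    obtain ⟨Q', L, hd, hm, hk, hv'⟩ := ih h5
    obtain ⟨Q, hc, hn, hx, hy⟩ := (h V G hG).1 x y
    obtain ⟨hQ, hl⟩ := (h V G hG).2 Q x y hc hn hx hy
    obtain ⟨j, hj1, hj2⟩ := List.mem_iff_getElem.1 ((hQ v).2 h1)
    have hj : Q[j]? = some v := by rw [List.getElem?_eq_getElem hj1, hj2]
    have hdd := dd_take h hG hc hn hx hj
    have hQn : Q ≠ [] := by rintro rfl; simp at hx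
    have hu'Q : u' ∈ Q := (hQ u').2 h4
    have hv'Q : v' ∉ Q := fun e => h6 ((hQ v').1 e)
    obtain ⟨t, ht1, ht2⟩ := List.mem_iff_getElem.1 (List.mem_reverse.2 hu'Q)
    have ht : Q.reverse[t]? = some u' := by rw [List.getElem?_eq_getElem ht1, ht2]
    have hdd' := dd_drop h hG hc hn hy ht
    have hdis : ∀ w ∈ Q, ¬ RA G u' v' w := fun w hw => sep' h hG hc hn hu'Q h5 hv'Q hw
    have hsub : ∀ w, RA G u' v' w → RA G u v w := fun w hw =>
      inner h hG ha (path_sub h hG h2 h3 h4) h5 h7 (hdis v ((hQ v).2 h1)) hw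
    have hset : Q.toFinset ∪ (Finset.univ.filter fun w => RA G u' v' w)
        = Finset.univ.filter fun w => RA G u v w := by
      apply Finset.eq_of_subset_of_card_le
      · intro w hw
        simp only [Finset.mem_filter, Finset.mem_univ, true_and, Finset.mem_union,
          List.mem_toFinset] at hw ⊢
        rcases hw with hw | hw
        · exact path_sub h hG h2 h3 ((hQ w).1 hw)
        · exact hsub w hw
      · rw [Finset.card_union_of_disjoint, List.toFinset_card_of_nodup hn, ← hl]
        · exact le_of_eq (by unfold br at h8; rw [← h8])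
        · rw [Finset.disjoint_left]
          intro w hw hw'
          simp only [Finset.mem_filter, Finset.mem_univ, true_and, List.mem_toFinset] at hw hw'
          exact hdis w hw hw'
    obtain ⟨hd1, hd2, hd3⟩ := hd
    refine ⟨Q, Q' :: L, ⟨?_, ?_, ?_⟩, ?_, by omega, ?_⟩
    · intro q hq
      rcases List.mem_cons.1 hq with rfl | hq
      · exact ⟨hQn, hc⟩
      · exact hd1 q hq
    · refine List.isChain_cons_cons.2 ⟨⟨t, u', v', ht, ?_, h5⟩, hd2⟩
      rw [hdd'] at hv'
      exact hv'
    · rw [List.flatten_cons]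
      refine List.nodup_append.2 ⟨hn, hd3, ?_⟩
      rintro a ha b hb rfl
      exact hdis a ha ((hm a).1 hb)
    · intro w
      have := Finset.ext_iff.1 hset w
      simp only [Finset.mem_filter, Finset.mem_univ, true_and, Finset.mem_union,
          List.mem_toFinset] at this
      rw [List.flatten_cons, List.mem_append, hm, this]
    · rw [hdd]; exact hj

theorem bwd (h : StmPath) (hG : G.IsTree) : ∀ (L : List (List V)) (Q : List V) (u v : V) (k : ℕ),
    G.Adj u v → ChDec G (Q :: L) → (∀ w, w ∈ (Q :: L).flatten ↔ RA G u v w) → 1 ≤ k →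
      Q[k - 1]? = some v → CC G u v k := by
  classical
  intro L
  induction L with
  | nil =>
    intro Q u v k ha hd hm hk hv
    obtain ⟨hd1, hd2, hd3⟩ := hd
    obtain ⟨hQn, hc⟩ := hd1 Q (by simp)
    have hn : Q.Nodup := by simpa using hd3
    have hx : Q.head? = some (Q.head hQn) := List.head?_eq_some_head hQn
    have hy : Q.getLast? = some (Q.getLast hQn) := List.getLast?_eq_some_getLast hQn
    obtain ⟨hQ, hl⟩ := (h V G hG).2 Q _ _ hc hn hx hy
    have hdd := dd_take h hG hc hn hx hv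
    have hm' : ∀ w, w ∈ Q ↔ RA G u v w := by simpa using hm
    have hk' : k = dd G (Q.head hQn) v := by omega
    rw [hk']
    refine CC.last ((hQ v).1 (List.mem_of_getElem? hv)) ((hm' _).1 (List.head_mem hQn))
      ((hm' _).1 (List.getLast_mem hQn)) ?_
    rw [hl, br_eq hn hm']
  | cons Q' L ih =>
    intro Q u v k ha hd hm hk hv
    obtain ⟨hd1, hd2, hd3⟩ := hd
    obtain ⟨hQn, hc⟩ := hd1 Q (by simp)
    have hd3' := hd3
    rw [List.flatten_cons] at hd3'
    obtain ⟨hn, hn', hdis0⟩ := List.nodup_append.1 hd3'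
    have hx : Q.head? = some (Q.head hQn) := List.head?_eq_some_head hQn
    have hy : Q.getLast? = some (Q.getLast hQn) := List.getLast?_eq_some_getLast hQn
    obtain ⟨hQ, hl⟩ := (h V G hG).2 Q _ _ hc hn hx hy
    have hdd := dd_take h hG hc hn hx hv
    have hk' : k = dd G (Q.head hQn) v := by omega
    have hd2' := List.isChain_cons_cons.1 hd2
    obtain ⟨t, u', v', hu', hv', h5⟩ := hd2'.1
    have hdd' := dd_drop h hG hc hn hy hu'
    have hu'Q : u' ∈ Q := List.mem_reverse.1 (List.mem_of_getElem? hu')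
    have hv'Q' : v' ∈ Q' := List.mem_of_getElem? hv'
    have hQm : ∀ w ∈ Q, RA G u v w := fun w hw =>
      (hm w).1 (by rw [List.flatten_cons]; exact List.mem_append_left _ hw)
    have hSm : ∀ w ∈ (Q' :: L).flatten, RA G u v w := fun w hw =>
      (hm w).1 (by rw [List.flatten_cons]; exact List.mem_append_right _ hw)
    have hv'S : v' ∈ (Q' :: L).flatten := by
      rw [List.flatten_cons]; exact List.mem_append_left _ hv'Q'
    have hv'Q : v' ∉ Q := fun e => hdis0 v' e v' hv'S rfl
    have hu'S : u' ∉ (Q' :: L).flatten := fun e => hdis0 u' hu'Q u' e rfl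
    have hvu : v' ≠ u := ra_right (hSm v' hv'S)
    have hvQ : v ∈ Q := List.mem_of_getElem? hv
    have hdis : ∀ w ∈ Q, ¬ RA G u' v' w := fun w hw => sep' h hG hc hn hu'Q h5 hv'Q hw
    have hd' : ChDec G (Q' :: L) := ⟨fun q hq => hd1 q (List.mem_cons_of_mem _ hq), hd2'.2, hn'⟩
    have hm' : ∀ w, w ∈ (Q' :: L).flatten ↔ RA G u' v' w := by
      intro w
      constructor
      · exact conn hd' hu'S hv'Q' w
      · intro hw
        have h10 := inner h hG ha (hQm u' hu'Q) h5 hvu (hdis v hvQ) hw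
        have h11 := (hm w).2 h10
        rw [List.flatten_cons, List.mem_append] at h11
        rcases h11 with h11 | h11
        · exact absurd hw (hdis w h11)
        · exact h11
    have hcc := ih Q' u' v' (t + 1) h5 hd' hm' (by omega) (by simpa using hv')
    rw [← hdd'] at hcc
    rw [hk']
    refine CC.cons ((hQ v).1 hvQ) (hQm _ (List.head_mem hQn)) (hQm _ (List.getLast_mem hQn))
      ((hQ u').1 hu'Q) h5 (fun e => hv'Q ((hQ v').2 e)) hvu ?_ hcc
    rw [hl, br_eq hn' hm', br_eq hd3 hm]
    simp only [List.flatten_cons, List.length_append]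

end

/-- (PT/6) Branches. -/
theorem stmBr (h : StmPath) : StmBr := by
  intro V _ G hG u v k ha
  constructor
  · intro hcc
    exact fwd h hG hcc ha
  · rintro ⟨Q, L, hd, hm, hk, hv⟩
    exact bwd h hG L Q u v k ha hd hm hk hv

end Pool.Agent.N189.PT
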